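import Mathlib
import Pool.Agent.helper61.BaseResComb

set_option autoImplicit false

/-!
There is, in ZFC, a separable `T₃` (even zero-dimensional) space without isolated points, of weight
at most `ℵ₁`, having a base of clopen sets that cannot be partitioned into two bases.
-/

namespace Pool.Agent.Results.MP_12e723_gt.SeparableNotBaseResolvable

open Set Cardinal TopologicalSpace
open Pool.Agent.helper61.BaseRes

theorem exists_omega_one_type : ∃ (T : Type) (_ : LinearOrder T) (_ : WellFoundedLT T),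
    #T = ℵ₁ ∧ ∀ t : T, (Iio t).Countable := by
  refine ⟨(ℵ₁ : Cardinal.{0}).ord.ToType, inferInstance, inferInstance, ?_, ?_⟩
  · simp
  · intro t
    rw [← Cardinal.le_aleph0_iff_set_countable]
    have h := Cardinal.mk_Iio_lt t (by simp)
    rw [Cardinal.mk_toType, Cardinal.card_ord] at h
    have h2 : (ℵ₁ : Cardinal.{0}) = Order.succ ℵ₀ := Cardinal.succ_aleph0.symm
    exact Order.lt_succ_iff.1 (h.trans_eq h2)

theorem exists_dense {I : Type} (hI : #I ≤ 𝔠) : ∃ D : Set (I → Bool), D.Countable ∧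
    ∀ (F : Finset I) (s : I → Bool), ∃ d ∈ D, ∀ i ∈ F, d i = s i := by
  classical
  have h1 : #I ≤ #(ℕ → Bool) := by
    simpa using hI
  obtain ⟨ι⟩ := h1
  let dd : Finset (List Bool) → (I → Bool) := fun L i =>
    decide (∃ n : ℕ, List.ofFn (fun k : Fin n => ι i k) ∈ L)
  refine ⟨Set.range dd, Set.countable_range dd, fun F s => ?_⟩
  have hsep : ∃ n : ℕ, ∀ i ∈ F, ∀ j ∈ F,
      (∀ k < n, ι i k = ι j k) → i = j := by
    have hpair : ∀ c : I × I, ∃ n : ℕ, (∀ k < n, ι c.1 k = ι c.2 k) → c.1 = c.2 := by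
      rintro ⟨i, j⟩
      by_cases h : i = j
      · exact ⟨0, fun _ => h⟩
      · have : ι i ≠ ι j := fun h' => h (ι.injective h')
        obtain ⟨k, hk⟩ := Function.ne_iff.1 this
        exact ⟨k + 1, fun h' => absurd (h' k (Nat.lt_succ_self k)) hk⟩
    choose N hN using hpair
    refine ⟨(F ×ˢ F).sup N, fun i hi j hj hij => hN (i, j) fun k hk => hij k (lt_of_lt_of_le hk ?_)⟩
    exact Finset.le_sup (f := N) (Finset.mk_mem_product hi hj)
  obtain ⟨n, hn⟩ := hsep
  refine ⟨_, ⟨(F.filter (fun i => s i = true)).image (fun i => List.ofFn (fun k : Fin n => ι i k)),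
    rfl⟩, fun j hj => ?_⟩
  have key : (∃ m : ℕ, List.ofFn (fun k : Fin m => ι j k) ∈
      (F.filter (fun i => s i = true)).image (fun i => List.ofFn (fun k : Fin n => ι i k))) ↔
      s j = true := by
    constructor
    · rintro ⟨m, hm⟩
      rw [Finset.mem_image] at hm
      obtain ⟨i, hi, him⟩ := hm
      rw [Finset.mem_filter] at hi
      have hlen : n = m := by
        have := congrArg List.length him
        simpa using this
      subst hlen
      have := List.ofFn_injective him
      have hij : i = j := hn i hi.1 j hj fun k hk => congrFun this ⟨k, hk⟩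
      rw [← hij]; exact hi.2
    · intro h
      exact ⟨n, Finset.mem_image.2 ⟨j, Finset.mem_filter.2 ⟨hj, h⟩, rfl⟩⟩
  show decide _ = s j
  cases hsj : s j
  · rw [decide_eq_false_iff_not, key, hsj]; simp
  · rw [decide_eq_true_iff, key, hsj]

theorem exists_cyl {I : Type} {p : (I → Bool) × (ℕ → Bool)} {U : Set ((I → Bool) × (ℕ → Bool))}
    (hU : IsOpen U) (hp : p ∈ U) : ∃ (F : Finset I) (n : ℕ), ∀ q : (I → Bool) × (ℕ → Bool),
      (∀ i ∈ F, q.1 i = p.1 i) → (∀ k < n, q.2 k = p.2 k) → q ∈ U := by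
  obtain ⟨u, v, hu, hv, hpu, hpv, huv⟩ := isOpen_prod_iff.1 hU p.1 p.2 hp
  obtain ⟨F, u', hF1, hF2⟩ := isOpen_pi_iff.1 hu p.1 hpu
  obtain ⟨G, v', hG1, hG2⟩ := isOpen_pi_iff.1 hv p.2 hpv
  refine ⟨F, G.sup id + 1, fun q h1 h2 => huv ⟨hF2 fun i hi => ?_, hG2 fun k hk => ?_⟩⟩
  · rw [h1 i hi]; exact (hF1 i hi).2
  · rw [h2 k (Nat.lt_succ_of_le (Finset.le_sup (f := id) hk))]; exact (hG1 k hk).2

section Space

variable {I : Type} (S : IdxScheme I) (D : Set (I → Bool))

/-- The `n`-th level. -/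
def lev (n : ℕ) : ℕ → Bool := fun k => decide (k = n)

/-- The underlying set of the space, as a subset of `2^I × 2^ℕ`. -/
def carrier : Set ((I → Bool) × (ℕ → Bool)) :=
  {p | (IsPoint S {i | p.1 i = true} ∧ p.2 = fun _ => false) ∨ (p.1 ∈ D ∧ ∃ n, p.2 = lev n)}

/-- The main basic sets. -/
def W (γ : I) : Set (carrier S D) :=
  {p | (∀ α ∈ S.P γ, p.1.1 α = true) ∧ p.1.1 γ = true ∧ (∀ β ∈ S.N γ, p.1.1 β = false) ∧
    ∀ k < (S.P γ).card, p.1.2 k = false}

/-- The basic sets of the countable dense part. -/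
def G (c : Finset I × Finset I × ℕ) : Set (carrier S D) :=
  {p | (∀ i ∈ c.1, (p.1.1 i = true ↔ i ∈ c.2.1)) ∧ p.1.2 c.2.2 = true}

/-- The base. -/
def base : Set (Set (carrier S D)) := Set.range (W S D) ∪ Set.range (G S D)

theorem isClopen_coord (i : I) (b : Bool) : IsClopen {p : carrier S D | p.1.1 i = b} :=
  (isClopen_discrete {b}).preimage
    ((continuous_apply i).comp (continuous_fst.comp continuous_subtype_val))

theorem isClopen_coord2 (k : ℕ) (b : Bool) : IsClopen {p : carrier S D | p.1.2 k = b} :=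
  (isClopen_discrete {b}).preimage
    ((continuous_apply k).comp (continuous_snd.comp continuous_subtype_val))

theorem isClopen_W (γ : I) : IsClopen (W S D γ) := by
  have h : W S D γ = ((⋂ α ∈ S.P γ, {p : carrier S D | p.1.1 α = true}) ∩
      {p : carrier S D | p.1.1 γ = true}) ∩ ((⋂ β ∈ S.N γ, {p : carrier S D | p.1.1 β = false}) ∩
      (⋂ k ∈ Finset.range (S.P γ).card, {p : carrier S D | p.1.2 k = false})) := by
    ext p
    simp only [W, Set.mem_ofPred_eq, Set.mem_inter_iff, Set.mem_iInter, Finset.mem_range]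
    tauto
  rw [h]
  exact ((isClopen_biInter_finset fun α _ => isClopen_coord S D α true).inter
    (isClopen_coord S D γ true)).inter
    ((isClopen_biInter_finset fun α _ => isClopen_coord S D α false).inter
    (isClopen_biInter_finset fun k _ => isClopen_coord2 S D k false))

theorem isClopen_G (c : Finset I × Finset I × ℕ) : IsClopen (G S D c) := by
  classical
  have h : G S D c = (⋂ i ∈ c.1, {p : carrier S D | p.1.1 i = decide (i ∈ c.2.1)}) ∩
      {p : carrier S D | p.1.2 c.2.2 = true} := by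
    ext p
    simp only [G, Set.mem_ofPred_eq, Set.mem_inter_iff, Set.mem_iInter]
    refine and_congr_left fun _ => forall_congr' fun i => forall_congr' fun _ => ?_
    by_cases hi : i ∈ c.2.1 <;> simp [hi]
  rw [h]
  exact (isClopen_biInter_finset fun i _ => isClopen_coord S D i _).inter
    (isClopen_coord2 S D _ true)

theorem isClopen_base {U : Set (carrier S D)} (hU : U ∈ base S D) : IsClopen U := by
  rcases hU with ⟨γ, rfl⟩ | ⟨c, rfl⟩
  · exact isClopen_W S D γ
  · exact isClopen_G S D c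

theorem lev_self (n : ℕ) : lev n n = true := by simp [lev]

theorem lev_eq {n k : ℕ} (h : lev n k = true) : n = k := by
  simp only [lev, decide_eq_true_eq] at h
  exact h.symm

/-- A point of the combinatorial system as a point of the space. -/
noncomputable def pt {x : Set I} (hx : IsPoint S x) : carrier S D := by
  classical
  exact ⟨(fun i => decide (i ∈ x), fun _ => false), Or.inl ⟨by
    have : {i | (fun i => decide (i ∈ x)) i = true} = x := by ext i; simp
    rw [this]; exact hx, rfl⟩⟩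

theorem pt_apply {x : Set I} (hx : IsPoint S x) (i : I) : (pt S D hx).1.1 i = true ↔ i ∈ x := by
  simp [pt]

theorem pt_apply2 {x : Set I} (hx : IsPoint S x) (k : ℕ) : (pt S D hx).1.2 k = false := by
  simp [pt]

theorem pt_mem_W {x : Set I} (hx : IsPoint S x) (γ : I) : pt S D hx ∈ W S D γ ↔ γ ∈ x := by
  constructor
  · rintro ⟨_, h, _, _⟩
    exact (pt_apply S D hx γ).1 h
  · intro h
    refine ⟨fun α hα => (pt_apply S D hx α).2 (hx.1 γ h hα), (pt_apply S D hx γ).2 h,
      fun β hβ => ?_, fun k _ => pt_apply2 S D hx k⟩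
    rw [← Bool.not_eq_true, pt_apply S D hx β]
    exact hx.2.1 γ h β hβ

theorem exists_many_below {x : Set I} (hx : IsPoint S x) (n : ℕ) (Q : Finset I)
    (hQ : (↑Q : Set I) ⊆ x) : ∃ γ ∈ x, Q ⊆ S.P γ ∧ n ≤ (S.P γ).card := by
  classical
  induction n with
  | zero =>
    obtain ⟨γ, h1, h2⟩ := hx.2.2.1 Q hQ
    exact ⟨γ, h1, h2, Nat.zero_le _⟩
  | succ n ih =>
    obtain ⟨γ, h1, h2, h3⟩ := ih
    obtain ⟨δ, k1, k2⟩ := hx.2.2.1 {γ} (by simpa using h1)
    have hγδ : γ ∈ S.P δ := k2 (Finset.mem_singleton_self γ)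
    refine ⟨δ, k1, h2.trans (S.P_trans δ γ hγδ), ?_⟩
    have : insert γ (S.P γ) ⊆ S.P δ := Finset.insert_subset hγδ (S.P_trans δ γ hγδ)
    have h4 := Finset.card_le_card this
    rw [Finset.card_insert_of_notMem (S.P_irrefl γ)] at h4
    omega

theorem isTopologicalBasis_base : IsTopologicalBasis (base S D) := by
  classical
  apply isTopologicalBasis_of_isOpen_of_nhds
  · intro u hu
    exact (isClopen_base S D hu).isOpen
  · intro a u hau hu
    obtain ⟨U, hU, rfl⟩ := isOpen_induced_iff.1 hu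
    obtain ⟨F, n, hFn⟩ := exists_cyl hU hau
    rcases a.2 with ⟨hx, ha2⟩ | ⟨hd, m, ha2⟩
    · set x : Set I := {i | a.1.1 i = true} with hxdef
      -- for each β ∈ F \ x choose a witness
      have hwit : ∀ β, β ∉ x → ∃ γ ∈ x, β ∈ S.N γ := hx.2.2.2
      have : ∃ wt : I → I, ∀ β, β ∉ x → wt β ∈ x ∧ β ∈ S.N (wt β) := by
        choose! wt h1 h2 using hwit
        exact ⟨wt, fun β hβ => ⟨h1 β hβ, h2 β hβ⟩⟩
      obtain ⟨wt, hwt⟩ := this
      obtain ⟨γ, hγ1, hγ2, hγ3⟩ := exists_many_below S hx n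
        (F.filter (fun i => i ∈ x) ∪ (F.filter (fun i => i ∉ x)).image wt) (by
          intro i hi
          rw [Finset.mem_coe, Finset.mem_union, Finset.mem_filter, Finset.mem_image] at hi
          rcases hi with hi | ⟨j, hj, rfl⟩
          · exact hi.2
          · exact (hwt j (Finset.mem_filter.1 hj).2).1)
      refine ⟨W S D γ, Or.inl ⟨γ, rfl⟩, ?_, ?_⟩
      · refine ⟨fun α hα => hx.1 γ hγ1 hα, hγ1, fun β hβ => ?_, fun k _ => by rw [ha2]⟩
        rw [← Bool.not_eq_true]
        exact hx.2.1 γ hγ1 β hβ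
      · rintro p ⟨hp1, hp2, hp3, hp4⟩
        apply hFn
        · intro i hi
          by_cases hix : i ∈ x
          · have h1 : i ∈ S.P γ := hγ2 (Finset.mem_union_left _ (Finset.mem_filter.2 ⟨hi, hix⟩))
            rw [hp1 i h1]
            exact (show a.1.1 i = true from hix).symm
          · have h1 : wt i ∈ S.P γ := hγ2 (Finset.mem_union_right _ (Finset.mem_image.2
              ⟨i, Finset.mem_filter.2 ⟨hi, hix⟩, rfl⟩))
            have h2 : i ∈ S.N γ := S.N_mono γ _ h1 (hwt i hix).2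
            rw [hp3 i h2]
            have : ¬ a.1.1 i = true := hix
            rw [Bool.not_eq_true] at this
            exact this.symm
        · intro k hk
          rw [hp4 k (lt_of_lt_of_le hk hγ3), ha2]
    · refine ⟨G S D (F, F.filter (fun i => a.1.1 i = true), m), Or.inr ⟨_, rfl⟩, ?_, ?_⟩
      · refine ⟨fun i hi => ?_, by rw [ha2]; exact lev_self m⟩
        simp only [Finset.mem_filter]
        exact ⟨fun h => ⟨hi, h⟩, fun h => h.2⟩
      · rintro p ⟨hp1, hp2⟩
        have hpm : p.1.2 = lev m := by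
          rcases p.2 with ⟨_, h⟩ | ⟨_, m', h⟩
          · rw [h] at hp2
            exact absurd hp2 (by simp)
          · rw [h] at hp2
            rw [h, lev_eq hp2]
        apply hFn
        · intro i hi
          have := hp1 i hi
          simp only [Finset.mem_filter] at this
          by_cases hai : a.1.1 i = true
          · rw [hai]; exact this.2 ⟨hi, hai⟩
          · have h' : ¬ p.1.1 i = true := fun h => hai (this.1 h).2
            rw [Bool.not_eq_true] at hai h'
            rw [hai, h']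
        · intro k _
          rw [hpm, ha2]

variable (hDc : D.Countable) (hD : ∀ (F : Finset I) (s : I → Bool), ∃ d ∈ D, ∀ i ∈ F, d i = s i)

include hD in
/-- The basic set `W γ` contains a point of every level `n ≥ |P γ|`. -/
theorem exists_mem_W (γ : I) (n : ℕ) (hn : (S.P γ).card ≤ n) :
    ∃ p : carrier S D, p ∈ W S D γ ∧ p.1.1 ∈ D ∧ p.1.2 = lev n := by
  classical
  obtain ⟨d, hd1, hd2⟩ := hD (insert γ (S.P γ ∪ S.N γ)) (fun i => decide (i ∉ S.N γ))
  refine ⟨⟨(d, lev n), Or.inr ⟨hd1, n, rfl⟩⟩, ⟨?_, ?_, ?_, ?_⟩, hd1, rfl⟩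
  · intro α hα
    show d α = true
    rw [hd2 α (Finset.mem_insert_of_mem (Finset.mem_union_left _ hα))]
    simpa using (Finset.disjoint_left.1 (S.disj γ)) hα
  · show d γ = true
    rw [hd2 γ (Finset.mem_insert_self _ _)]
    simpa using S.N_irrefl γ
  · intro β hβ
    show d β = false
    rw [hd2 β (Finset.mem_insert_of_mem (Finset.mem_union_right _ hβ))]
    simpa using hβ
  · intro k hk
    show lev n k = false
    simp only [lev, decide_eq_false_iff_not]
    omega

include hD in
theorem exists_mem_G (c : Finset I × Finset I × ℕ) (F : Finset I) (s : I → Bool)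
    (hs : ∀ i ∈ F, i ∉ c.1) :
    ∃ p : carrier S D, p ∈ G S D c ∧ p.1.1 ∈ D ∧ p.1.2 = lev c.2.2 ∧ ∀ i ∈ F, p.1.1 i = s i := by
  classical
  obtain ⟨d, hd1, hd2⟩ := hD (c.1 ∪ F) (fun i => if i ∈ F then s i else decide (i ∈ c.2.1))
  refine ⟨⟨(d, lev c.2.2), Or.inr ⟨hd1, _, rfl⟩⟩, ⟨?_, lev_self _⟩, hd1, rfl, ?_⟩
  · intro i hi
    show d i = true ↔ _
    rw [hd2 i (Finset.mem_union_left _ hi), if_neg (fun h => hs i h hi)]
    simp
  · intro i hi
    show d i = s i
    rw [hd2 i (Finset.mem_union_right _ hi), if_pos hi]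

include hDc hD in
theorem separable : SeparableSpace (carrier S D) := by
  refine ⟨⟨{p | p.1.1 ∈ D ∧ ∃ n, p.1.2 = lev n}, ?_, ?_⟩⟩
  · have h1 : (Subtype.val '' {p : carrier S D | p.1.1 ∈ D ∧ ∃ n, p.1.2 = lev n}) ⊆
        D ×ˢ (Set.range lev) := by
      rintro _ ⟨p, ⟨hp1, n, hp2⟩, rfl⟩
      exact ⟨hp1, n, hp2.symm⟩
    exact Set.countable_of_injective_of_countable_image Subtype.val_injective.injOn
      ((hDc.prod (Set.countable_range lev)).mono h1)
  · rw [(isTopologicalBasis_base S D).dense_iff]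
    rintro o (⟨γ, rfl⟩ | ⟨c, rfl⟩) _
    · obtain ⟨p, hp1, hp2, hp3⟩ := exists_mem_W S D hD γ _ le_rfl
      exact ⟨p, hp1, hp2, _, hp3⟩
    · obtain ⟨p, hp1, hp2, hp3, _⟩ := exists_mem_G S D hD c ∅ (fun _ => true) (by simp)
      exact ⟨p, hp1, hp2, _, hp3⟩

include hD in
theorem no_isolated (p : carrier S D) : ¬ IsOpen ({p} : Set (carrier S D)) := by
  classical
  intro hp
  obtain ⟨v, hv, hpv, hvp⟩ := (isTopologicalBasis_base S D).exists_subset_of_mem_open
    (Set.mem_singleton p) hp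
  rcases hv with ⟨γ, rfl⟩ | ⟨c, rfl⟩
  · obtain ⟨a, ha1, _, ha2⟩ := exists_mem_W S D hD γ _ le_rfl
    obtain ⟨b, hb1, _, hb2⟩ := exists_mem_W S D hD γ _ (Nat.le_succ _)
    have h1 := hvp ha1
    have h2 := hvp hb1
    rw [Set.mem_singleton_iff] at h1 h2
    rw [h1] at ha2
    rw [h2, ha2] at hb2
    have := congrFun hb2 (S.P γ).card
    rw [lev_self] at this
    have := lev_eq this.symm
    omega
  · have hex : ∃ i, i ∉ c.1 := by
      by_contra hcon
      push Not at hcon
      exact uncountable_index S ((Finset.countable_toSet c.1).mono fun a _ => hcon a)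
    obtain ⟨i, hi⟩ := hex
    obtain ⟨a, ha1, _, _, ha2⟩ := exists_mem_G S D hD c {i} (fun _ => true) (by simpa using hi)
    obtain ⟨b, hb1, _, _, hb2⟩ := exists_mem_G S D hD c {i} (fun _ => false) (by simpa using hi)
    have h1 := hvp ha1
    have h2 := hvp hb1
    rw [Set.mem_singleton_iff] at h1 h2
    have e1 := ha2 i (Finset.mem_singleton_self i)
    have e2 := hb2 i (Finset.mem_singleton_self i)
    rw [h1] at e1
    rw [h2, e1] at e2
    simp at e2

section Ordinals

variable {T : Type} [LinearOrder T] [WellFoundedLT T]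
    (hT : ∀ t : T, (Iio t).Countable) (τ : T → Finset I × I)
    (hτ : ∀ c, ¬ {t | τ t = c}.Countable)

include hT hτ in
/-- `W γ ⊆ W w` only when `w` is `γ` or belongs to `P γ`. -/
theorem below_of_subset {γ w : I} (h : W S D γ ⊆ W S D w) : w = γ ∨ w ∈ S.P γ := by
  classical
  by_contra hcon
  push Not at hcon
  obtain ⟨δ, _, hδ1, hδ2⟩ := exists_index S (insert γ (S.P γ)) (insert w (S.N γ))
    (by
      intro α hα
      rw [Finset.mem_insert] at hα
      rcases hα with rfl | hα
      · exact Finset.subset_insert _ _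
      · exact (S.P_trans γ α hα).trans (Finset.subset_insert _ _))
    (by
      intro α hα
      rw [Finset.mem_insert] at hα
      rcases hα with rfl | hα
      · exact Finset.subset_insert _ _
      · exact (S.N_mono γ α hα).trans (Finset.subset_insert _ _))
    (by
      rw [Finset.disjoint_left]
      intro a ha hb
      rw [Finset.mem_insert] at ha hb
      rcases ha with rfl | ha <;> rcases hb with hb | hb
      · exact hcon.1 hb.symm
      · exact S.N_irrefl _ hb
      · exact hcon.2 (hb ▸ ha)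
      · exact (Finset.disjoint_left.1 (S.disj γ)) ha hb)
    ∅ Set.countable_empty
  have hc : Cond S (∅, ∅) := ⟨Set.countable_empty, Set.countable_empty,
    Set.disjoint_left.2 (by simp), by simp, by simp⟩
  have hc2 := cond_addIdx S hc (γ := δ) (by simp) (by simp) (by simp)
  obtain ⟨x, hx1, hx2, hx3⟩ := exists_point_extending S hT τ hτ _ hc2
  have hγx : γ ∈ x := hx2 (Or.inr (Or.inl (by rw [hδ1]; exact Finset.mem_insert_self _ _)))
  have hwx : w ∉ x := (Set.disjoint_left.1 hx3) (Or.inr (by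
    rw [hδ2]; exact Finset.mem_insert_self _ _))
  exact hwx ((pt_mem_W S D hx1 w).1 (h ((pt_mem_W S D hx1 γ).2 hγx)))

include hT hτ in
theorem W_injective : Function.Injective (W S D) := by
  intro γ w h
  rcases below_of_subset S D hT τ hτ (le_of_eq h) with h1 | h1
  · exact h1.symm
  · rcases below_of_subset S D hT τ hτ (le_of_eq h.symm) with h2 | h2
    · exact h2
    · exact absurd (S.P_trans γ w h1 h2) (S.P_irrefl γ)

include hT hτ in
theorem not_resolvable : ¬ ∃ B₀ B₁ : Set (Set (carrier S D)), B₀ ∪ B₁ = base S D ∧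
    Disjoint B₀ B₁ ∧ IsTopologicalBasis B₀ ∧ IsTopologicalBasis B₁ := by
  classical
  rintro ⟨B₀, B₁, hun, hdis, hB₀, hB₁⟩
  obtain ⟨x, hx, w, hw, hhom⟩ := exists_homogeneous S hT τ hτ (fun γ => W S D γ ∈ B₀)
  have key : ∀ B : Set (Set (carrier S D)), B ⊆ base S D → IsTopologicalBasis B →
      ∃ γ ∈ x, (w = γ ∨ w ∈ S.P γ) ∧ W S D γ ∈ B := by
    intro B hB hbas
    obtain ⟨v, hv, hpv, hvw⟩ := hbas.exists_subset_of_mem_open
      ((pt_mem_W S D hx w).2 hw) (isClopen_W S D w).isOpen
    rcases hB hv with ⟨γ, rfl⟩ | ⟨c, rfl⟩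
    · exact ⟨γ, (pt_mem_W S D hx γ).1 hpv, below_of_subset S D hT τ hτ hvw, hv⟩
    · exact absurd hpv.2 (by rw [pt_apply2]; simp)
  obtain ⟨γ₀, h01, h02, h03⟩ := key B₀ (hun ▸ Set.subset_union_left) hB₀
  obtain ⟨γ₁, h11, h12, h13⟩ := key B₁ (hun ▸ Set.subset_union_right) hB₁
  have e0 : W S D γ₀ ∈ B₀ ↔ W S D w ∈ B₀ := by
    rcases h02 with rfl | h
    · exact Iff.rfl
    · exact hhom γ₀ h01 h
  have e1 : W S D γ₁ ∈ B₀ ↔ W S D w ∈ B₀ := by
    rcases h12 with rfl | h
    · exact Iff.rfl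
    · exact hhom γ₁ h11 h
  exact (Set.disjoint_left.1 hdis) (e1.2 (e0.1 h03)) h13

end Ordinals

end Space

/-- **Negative answer to Q1, in ZFC.** There is a separable `T₃` space `X` without isolated points
and a base `B` of `X`, consisting of `ℵ₁` clopen sets, that is not the union of two disjoint
bases of `X`. -/
theorem result : ∃ (X : Type) (_ : TopologicalSpace X), T3Space X ∧ SeparableSpace X ∧
    (∀ x : X, ¬ IsOpen ({x} : Set X)) ∧
    ∃ B : Set (Set X), IsTopologicalBasis B ∧ (∀ U ∈ B, IsClopen U) ∧ #B = ℵ₁ ∧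
      ¬ ∃ B₀ B₁ : Set (Set X), B₀ ∪ B₁ = B ∧ Disjoint B₀ B₁ ∧
        IsTopologicalBasis B₀ ∧ IsTopologicalBasis B₁ := by
  classical
  obtain ⟨T, _, _, hTc, hT⟩ := exists_omega_one_type
  have hTinf : Infinite T := by
    rw [← Cardinal.aleph0_le_mk_iff, hTc]; exact Cardinal.aleph0_le_aleph 1
  have hFT : #(Finset T × Finset T) ≤ ℵ₁ := by
    simp only [Cardinal.mk_prod, Cardinal.lift_id, Cardinal.mk_finset_of_infinite, hTc]
    exact (Cardinal.mul_eq_self (Cardinal.aleph0_le_aleph 1)).le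
  obtain ⟨g, hg⟩ := exists_fibers hFT ⟨(∅, ∅)⟩ hTc
  obtain ⟨S⟩ := exists_scheme g hg
  set I := {γ : T // Good g γ} with hI
  have hI1 : #I ≤ ℵ₁ := by
    rw [← hTc]; exact Cardinal.mk_subtype_le _
  have hIunc : ¬ #I ≤ ℵ₀ := by
    intro h
    rw [Cardinal.mk_le_aleph0_iff] at h
    exact uncountable_index S (Set.to_countable _)
  have hIeq : #I = ℵ₁ := by
    apply le_antisymm hI1
    rw [← Cardinal.succ_aleph0]
    exact Order.succ_le_of_lt (not_le.1 hIunc)
  have hIinf : Infinite I := by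
    rw [← Cardinal.aleph0_le_mk_iff, hIeq]; exact Cardinal.aleph0_le_aleph 1
  obtain ⟨D, hDc, hD⟩ := exists_dense (hI1.trans Cardinal.aleph_one_le_continuum)
  have hneI : Nonempty I := inferInstance
  have hFI : #(Finset I × I) ≤ ℵ₁ := by
    simp only [Cardinal.mk_prod, Cardinal.lift_id, Cardinal.mk_finset_of_infinite, hIeq]
    exact (Cardinal.mul_eq_self (Cardinal.aleph0_le_aleph 1)).le
  obtain ⟨τ, hτ⟩ := exists_fibers hFI ⟨(∅, Classical.arbitrary I)⟩ hTc
  refine ⟨carrier S D, inferInstance, inferInstance, separable S D hDc hD, no_isolated S D hD,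
    base S D, isTopologicalBasis_base S D, fun U hU => isClopen_base S D hU, ?_,
    not_resolvable S D hT τ hτ⟩
  apply le_antisymm
  · refine (Cardinal.mk_union_le _ _).trans ?_
    have h1 : #(Set.range (W S D)) ≤ ℵ₁ := Cardinal.mk_range_le.trans hI1
    have h2 : #(Set.range (G S D)) ≤ ℵ₁ := by
      refine Cardinal.mk_range_le.trans ?_
      simp only [Cardinal.mk_prod, Cardinal.lift_id, Cardinal.mk_finset_of_infinite, hIeq,
        Cardinal.mk_nat]
      refine (mul_le_mul' le_rfl (mul_le_mul' le_rfl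
        (Cardinal.aleph0_le_aleph 1))).trans ?_
      rw [Cardinal.mul_eq_self (Cardinal.aleph0_le_aleph 1),
        Cardinal.mul_eq_self (Cardinal.aleph0_le_aleph 1)]
    exact (add_le_add h1 h2).trans (Cardinal.add_eq_self (Cardinal.aleph0_le_aleph 1)).le
  · rw [← hIeq]
    refine (Cardinal.mk_range_eq _ (W_injective S D hT τ hτ)).symm.le.trans ?_
    exact Cardinal.mk_le_mk_of_subset Set.subset_union_left

end Pool.Agent.Results.MP_12e723_gt.SeparableNotBaseResolvable
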